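import Mathlib
import Pool.Agent.V7H88.BS.J

/-!
# The theorems of Backlund and Speiser for the Lindelöf hypothesis

Let `P` be a polynomial, not zero, and `P(d/ds) ζ = ∑ c_j ζ^(j)`.  All solutions of equations are counted with
their multiplicities.

* (A) (large values) For all `κ, β > 0` there is `η > 0` such that the following holds for all large `T`.  If
  `|ζ(1/2 + iT)| ≥ T^κ` then `P(d/ds) ζ` takes EVERY value `a` with `|a| ≤ T^η` at least `η log T` times in the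
  box `1/2 + η ≤ Re s ≤ 1/η`, `|Im s - T| ≤ 1/η` on the right of the critical line, and also at least `η log T`
  times in the box `-β ≤ Re s ≤ 1/2 - η`, `|Im s - T| ≤ 1/η` on the left of the critical line.
* (B) (small values) For all `δ, θ > 0` and `B` there are `κ, H > 0` such that for all large `T` with
  `|ζ(1/2 + it)| ≤ T^κ` for `|t - T| ≤ H`: every value `a` is taken at most `θ log T` times in
  `1/2 + δ ≤ Re s ≤ B`, `|Im s - T| ≤ 1`, and every value `a` with `|a| ≤ T^κ` at most `θ log T` times in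
  `-1 ≤ Re s ≤ 1/2 - δ`, `|Im s - T| ≤ 1`.
* (C) (criteria) For every `a` the Lindelöf hypothesis is equivalent to: for all `δ > 0` and `B` the number of
  solutions of `P(d/ds) ζ (s) = a` with `1/2 + δ ≤ Re s ≤ B`, `T ≤ Im s ≤ T + 1` is `o(log T)`; and also to: for
  all `δ > 0` the number of solutions with `-1 ≤ Re s ≤ 1/2 - δ`, `T ≤ Im s ≤ T + 1` is `o(log T)`.

For `P = 1`, `a = 0` the first part of (C) is the theorem of Backlund (1918).  For `P = X`, `a = 0` the second part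
is the analogue, for the Lindelöf hypothesis, of the theorem of Speiser: the Lindelöf hypothesis holds if and only if
for every `δ > 0` the number of zeros of `ζ'` in `-1 ≤ Re s ≤ 1/2 - δ`, `T ≤ Im s ≤ T + 1` is `o(log T)`; the
same holds for every derivative `ζ^(k)`, `k ≥ 1`, on the left and on the right of the critical line.

Proof.  Right: few values imply `P(d/ds) ζ = O(T^ε)` by Backlund's argument from a point far to the right at which
`|P(d/ds) ζ - a|` is not small; the operator `P(d/ds)` is inverted along horizontal segments, and the three lines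
theorem leads to the critical line.  Left: with `1 - conj s` in place of `s` the function becomes
`Q(d/dw) (X ζ)`, with the factor `X` of the functional equation.  Far to the right the highest derivative dominates
(`X'/X` is about `log t`), so Backlund's argument gives `Q(d/dw) (X ζ) = O(|X| T^ε)`.  The inversion, from a line
close to the critical line to a line a little further on the right, gains a power of `T` as `|X|` grows like
`T^(Re w - 1/2)`, and this contradicts the three lines theorem near a (weighted) maximum of `|ζ|`.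
-/

set_option autoImplicit false

open Filter Topology

namespace Pool.Agent.Results.MP_4e5e8a_nt.BacklundSpeiserH88

/-- `|ζ(1/2 + it)|` -/
noncomputable def Z (t : ℝ) : ℝ := ‖riemannZeta (1 / 2 + t * Complex.I)‖

/-- the Lindelöf hypothesis -/
def Lindelof : Prop := ∀ ε : ℝ, 0 < ε → ∃ C : ℝ, ∀ t : ℝ, Z t ≤ C * (1 + |t|) ^ ε

/-- `P(d/ds) ζ = ∑ c_j ζ^(j)` for `P = ∑ c_j X^j` -/
noncomputable def L (P : Polynomial ℂ) (s : ℂ) : ℂ :=
  ∑ j ∈ Finset.range (P.natDegree + 1), P.coeff j * iteratedDeriv j riemannZeta s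

/-- the number of the elements of `S`, counted with their multiplicities as zeros of `P(d/ds) ζ - a` -/
noncomputable def count (P : Polynomial ℂ) (a : ℂ) (S : Finset ℂ) : ℕ :=
  ∑ s ∈ S, analyticOrderNatAt (fun z => L P z - a) s

/-- `S` consists of solutions `s` of `P(d/ds) ζ (s) = a` with `x₁ ≤ Re s ≤ x₂` and `y₁ ≤ Im s ≤ y₂` -/
def Sol (P : Polynomial ℂ) (a : ℂ) (x₁ x₂ y₁ y₂ : ℝ) (S : Finset ℂ) : Prop :=
  ∀ s ∈ S, x₁ ≤ s.re ∧ s.re ≤ x₂ ∧ y₁ ≤ s.im ∧ s.im ≤ y₂ ∧ L P s = a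

/-- the number of the solutions `s` of `P(d/ds) ζ (s) = a` with `x₁ ≤ Re s ≤ x₂` and `T ≤ Im s ≤ T + 1` is
`o(log T)` -/
def Rare (P : Polynomial ℂ) (a : ℂ) (x₁ x₂ : ℝ) : Prop := ∀ ε : ℝ, 0 < ε → ∃ T₁ : ℝ, ∀ T : ℝ, T₁ ≤ T →
  ∀ S : Finset ℂ, Sol P a x₁ x₂ T (T + 1) S → count P a S ≤ ε * Real.log T

lemma count_eq (P : Polynomial ℂ) (a : ℂ) (S : Finset ℂ) :
    ((count P a S : ℕ) : ℝ) =
      ∑ s ∈ S, (H370.mult (fun z => Pool.Agent.V7H88.BS.PD P riemannZeta z - a) s : ℝ) := by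
  unfold count
  push_cast
  rfl

lemma rare_iff (P : Polynomial ℂ) (a : ℂ) (x₁ x₂ : ℝ) :
    Rare P a x₁ x₂ ↔ Pool.Agent.V7H88.BS.FewV P a x₁ x₂ := by
  unfold Rare Pool.Agent.V7H88.BS.FewV
  simp only [count_eq]
  rfl

lemma lindelof_iff : Lindelof ↔ Pool.Agent.TH804.MS.Exponent 0 := by
  unfold Lindelof Pool.Agent.TH804.MS.Exponent
  simp only [zero_add]
  rfl

lemma Z_eq (t : ℝ) : ‖riemannZeta ⟨1 / 2, t⟩‖ = Z t := Pool.Agent.V7H88.BS.Z_eq t

theorem result (P : Polynomial ℂ) (hP : P ≠ 0) :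
    -- (A) large values of zeta
    (∀ κ β : ℝ, 0 < κ → 0 < β → ∃ η : ℝ, 0 < η ∧ ∃ T₁ : ℝ, ∀ T : ℝ, T₁ ≤ T → T ^ κ ≤ Z T →
      ∀ a : ℂ, ‖a‖ ≤ T ^ η →
        (∃ S : Finset ℂ, Sol P a (1 / 2 + η) (1 / η) (T - 1 / η) (T + 1 / η) S ∧
          η * Real.log T ≤ count P a S) ∧
        (∃ S : Finset ℂ, Sol P a (-β) (1 / 2 - η) (T - 1 / η) (T + 1 / η) S ∧
          η * Real.log T ≤ count P a S)) ∧
    -- (B) small values of zeta
    (∀ δ θ B : ℝ, 0 < δ → 0 < θ → ∃ κ H : ℝ, 0 < κ ∧ 0 < H ∧ ∃ T₁ : ℝ, ∀ T : ℝ, T₁ ≤ T →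
      (∀ t : ℝ, |t - T| ≤ H → Z t ≤ T ^ κ) →
        (∀ (a : ℂ) (S : Finset ℂ), Sol P a (1 / 2 + δ) B (T - 1) (T + 1) S →
          count P a S ≤ θ * Real.log T) ∧
        (∀ (a : ℂ) (S : Finset ℂ), ‖a‖ ≤ T ^ κ → Sol P a (-1) (1 / 2 - δ) (T - 1) (T + 1) S →
          count P a S ≤ θ * Real.log T)) ∧
    -- (C) the criteria
    (∀ a : ℂ, (Lindelof ↔ ∀ δ B : ℝ, 0 < δ → Rare P a (1 / 2 + δ) B) ∧
      (Lindelof ↔ ∀ δ : ℝ, 0 < δ → Rare P a (-1) (1 / 2 - δ))) := by
  refine ⟨fun κ β hκ hβ => ?_, fun δ θ B hδ hθ => ?_, fun a => ⟨?_, ?_⟩⟩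
  · obtain ⟨η₁, hη₁, hη₁1, h1⟩ := Pool.Agent.V7H88.BS.right_many P hP hκ
    obtain ⟨η₂, hη₂, hη₂1, h2⟩ := Pool.Agent.V7H88.BS.left_many P hP hκ hβ
    set η : ℝ := min η₁ η₂ with hη
    have hη0 : 0 < η := lt_min hη₁ hη₂
    have hle1 : η ≤ η₁ := min_le_left _ _
    have hle2 : η ≤ η₂ := min_le_right _ _
    have hi1 : 1 / η₁ ≤ 1 / η := one_div_le_one_div_of_le hη0 hle1
    have hi2 : 1 / η₂ ≤ 1 / η := one_div_le_one_div_of_le hη0 hle2
    obtain ⟨T₁, hT₁⟩ := eventually_atTop.1 ((h1.and h2).and (eventually_ge_atTop 1))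
    refine ⟨η, hη0, T₁, fun T hT hZ a ha => ?_⟩
    obtain ⟨⟨h3, h4⟩, h5⟩ := hT₁ T hT
    rw [Z_eq] at h3 h4
    have hL : 0 ≤ Real.log T := Real.log_nonneg h5
    have ha1 : ‖a‖ ≤ T ^ η₁ := ha.trans (Real.rpow_le_rpow_of_exponent_le h5 hle1)
    have ha2 : ‖a‖ ≤ T ^ η₂ := ha.trans (Real.rpow_le_rpow_of_exponent_le h5 hle2)
    obtain ⟨S, hS1, hS2⟩ := h3 hZ a ha1
    obtain ⟨S', hS'1, hS'2⟩ := h4 hZ a ha2
    refine ⟨⟨S, fun s hs => ?_, ?_⟩, ⟨S', fun s hs => ?_, ?_⟩⟩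
    · obtain ⟨h6, h7, h8, h9⟩ := hS1 s hs
      have h8' := abs_le.1 h8
      exact ⟨by linarith, by linarith, by linarith, by linarith, h9⟩
    · rw [count_eq]
      exact (mul_le_mul_of_nonneg_right hle1 hL).trans hS2
    · obtain ⟨h6, h7, h8, h9⟩ := hS'1 s hs
      have h8' := abs_le.1 h8
      exact ⟨by linarith, by linarith, by linarith, by linarith, h9⟩
    · rw [count_eq]
      exact (mul_le_mul_of_nonneg_right hle2 hL).trans hS'2
  · obtain ⟨κ₁, H₁, hκ₁, -, hH₁, h1⟩ := Pool.Agent.V7H88.BS.right_few P hP (δ := min δ 1) (θ := θ) B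
      (lt_min hδ one_pos) (min_le_right _ _) hθ
    obtain ⟨κ₂, H₂, hκ₂, -, hH₂, h2⟩ := Pool.Agent.V7H88.BS.left_few P hP (δ := min δ (1 / 2)) (θ := θ)
      (lt_min hδ (by norm_num)) (min_le_right _ _) hθ
    obtain ⟨T₁, hT₁⟩ := eventually_atTop.1 ((h1.and h2).and (eventually_ge_atTop 1))
    refine ⟨min κ₁ κ₂, max H₁ H₂, lt_min hκ₁ hκ₂, lt_max_of_lt_left hH₁, T₁, fun T hT hsm => ?_⟩
    obtain ⟨⟨h3, h4⟩, h5⟩ := hT₁ T hT
    have hle1 : T ^ (min κ₁ κ₂) ≤ T ^ κ₁ := Real.rpow_le_rpow_of_exponent_le h5 (min_le_left _ _)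
    have hle2 : T ^ (min κ₁ κ₂) ≤ T ^ κ₂ := Real.rpow_le_rpow_of_exponent_le h5 (min_le_right _ _)
    refine ⟨fun a S hS => ?_, fun a S ha hS => ?_⟩
    · rw [count_eq]
      refine h3 (fun t ht => ?_) a S fun s hs => ?_
      · rw [Z_eq]
        exact (hsm t (ht.trans (le_max_left _ _))).trans hle1
      · obtain ⟨h6, h7, h8, h9, h10⟩ := hS s hs
        have := min_le_left δ 1
        exact ⟨by linarith, h7, by rw [abs_le]; constructor <;> linarith, h10⟩
    · rw [count_eq]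
      refine h4 (fun t ht => ?_) a (ha.trans hle2) S fun s hs => ?_
      · rw [Z_eq]
        exact (hsm t (ht.trans (le_max_right _ _))).trans hle2
      · obtain ⟨h6, h7, h8, h9, h10⟩ := hS s hs
        have := min_le_left δ (1 / 2)
        exact ⟨h6, by linarith, by rw [abs_le]; constructor <;> linarith, h10⟩
  · simp only [rare_iff, lindelof_iff]
    exact Pool.Agent.V7H88.BS.crit_right P hP a
  · simp only [rare_iff, lindelof_iff]
    exact Pool.Agent.V7H88.BS.crit_left P hP a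

end Pool.Agent.Results.MP_4e5e8a_nt.BacklundSpeiserH88
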