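import Mathlib
import Pool.Agent.V7H52.GM.J
import Pool.Agent.V7H83.LG.A9

/-!
# The Lindelöf hypothesis and geometric means of multiples of the zeta function

For a probability measure `ρ` on the complex plane the geometric mean of `|f|` about the point `1/2 + it` is
`GM ρ f t = exp ∫ log |f(1/2 + it + z)| dρ(z)` (`0` if the integral is `-∞`).  We admit EVERY probability measure
carried by a compact subset of the closed half plane `Re z ≥ 0` which gives positive mass to all the strips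
`Re z < δ`, `δ > 0`: point masses at some shifts, one of them imaginary; vertical intervals; half discs ...  Let
`F = P(d/ds) ζ - a` with a polynomial `P ≠ 0` and a number `a` (for instance `ζ`, `ζ'`, `ζ - a`).

* (A) (local law, unconditional) For all `κ > 0` and `B`, `σ₀` there are `η, H > 0` such that for all large `T` with
  `|ζ(1/2 + iT)| ≥ T^κ` and for ALL multipliers `g` at the height `T` the set of the `t` with `|t - T| ≤ H` and
  `GM ρ (F g) t ≥ T^η` has measure at least `η`.  A multiplier is a function analytic in `Re s ≥ 1/2` with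
  `|g(s)| ≤ (T + |s|)^B` there and `|g(s)| ≥ T^(-η)` if `Re s ≥ σ₀` and `|Im s - T| ≤ R`; `R` bounds the
  support of `ρ`.
* (B) (no mollifier) In particular no Dirichlet polynomial `g(s) = ∑_{n ≤ N} c_n n^(-s)` with `N ≤ T^B`, `c_1 = 1`
  and `|c_n| ≤ n^B` makes the product `F g` small, even in the geometric mean, near a large value of zeta.
* (C) (criteria) The Lindelöf hypothesis is equivalent to each of: `GM ρ F t ≤ t^ε` for all large `t`; the measure of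
  the `t` in `[T, T + 1]` with `GM ρ F t > t^ε` tends to `0`; for all `ε, H > 0` and all large `T` there is
  one multiplier `g`, which may depend on `T`, with `GM ρ (F g) t ≤ T^ε` for all `t` with `|t - T| ≤ H` outside a
  set of measure `ε`.
* (D) (intervals) For every `h > 0` the Lindelöf hypothesis is equivalent to
  `∫_t^{t+h} log |F(1/2 + iu)| du ≤ ε log t` for all `ε > 0` and all large `t`.
* (E) (products of shifts) For all `z_0, ..., z_n` with `Re z_j ≥ 0`, at least one of them imaginary, and all weights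
  `w_j > 0` it is equivalent to `∏_j |F(1/2 + it + z_j)|^(w_j) ≤ t^ε` for all `ε > 0` and all large `t`.
* (G) (dilations; this part is by helper83 of this project, `Pool.Agent.V7H83.LG`) For zeta itself and for every
  probability measure on (dilation, real shift) with bounded support in `(0, ∞) × ℝ` such that some dilation `l` has
  positive mass, it is equivalent to: the mean of `log Z (l' x + h)` is at most `ε log x` for almost all large `x`; in
  particular to `∏_j Z(l_j t + h_j)^(w_j) = O(t^ε)`, for instance `Z(t) Z(2 t) = O(t^ε)`.  The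
  local law: small means near `T` bound `Z` near `l T`.

So large values of zeta cannot be compensated by small values at fixed distances, nor by any multiplier.

Proof.  By the local form of Backlund's theorem for `F` (`Pool.Agent.V7H88.BS.right_many`, helper88 of this project)
a large value at `T` forces at least `η₁ log T` zeros of `F` with `Re s ≥ 1/2 + η₁` at bounded distance from `T`.  They
are zeros of `F g` for every `g`.  Apply the Poisson-Jensen inequality in the half plane `Re s > 1/2`, with these zeros,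
to `log max(|F g|, e^(-M))` (pole removed) shifted by `z`, and integrate over `z` with respect to `ρ`.  The
zeros contribute a multiple of `log T` as soon as `Re z < η₁/2`; as at the centre, far to the right, `|F g|` is not
small, the means with respect to the Poisson measure, hence the means on a set of positive measure of a bounded
interval about `T`, are at least a multiple of `log T`, for all `M` at the same time.
-/

set_option autoImplicit false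

open Filter Topology MeasureTheory

namespace Pool.Agent.Results.MP_4e5e8a_nt.GeometricMeansH52

/-- `|ζ(1/2 + it)|` -/
noncomputable def Z (t : ℝ) : ℝ := ‖riemannZeta (1 / 2 + t * Complex.I)‖

/-- the Lindelöf hypothesis -/
def Lindelof : Prop := ∀ ε : ℝ, 0 < ε → ∃ C : ℝ, ∀ t : ℝ, Z t ≤ C * (1 + |t|) ^ ε

/-- `P(d/ds) ζ - a`, with `P(d/ds) ζ = ∑ c_j ζ^(j)` for `P = ∑ c_j X^j` -/
noncomputable def F (P : Polynomial ℂ) (a : ℂ) (s : ℂ) : ℂ :=
  (∑ j ∈ Finset.range (P.natDegree + 1), P.coeff j * iteratedDeriv j riemannZeta s) - a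

/-- the geometric mean `exp ∫ log |f(1/2 + it + z)| dρ(z)`, as the infimum (the limit) over `n` of the same
expression with `max(|f|, e^(-n))` in place of `|f|` -/
noncomputable def GM (ρ : Measure ℂ) (f : ℂ → ℂ) (t : ℝ) : ℝ :=
  ⨅ n : ℕ, Real.exp (∫ z, Real.log (max ‖f (1 / 2 + t * Complex.I + z)‖ (Real.exp (-(n : ℝ)))) ∂ρ)

/-- `ρ` is a probability measure carried by `Re z ≥ 0`, `|z| ≤ R`, and every strip `Re z < δ`, `δ > 0`, has positive
mass -/
def Averaging (ρ : Measure ℂ) (R : ℝ) : Prop := IsProbabilityMeasure ρ ∧ (∀ᵐ z ∂ρ, 0 ≤ z.re ∧ ‖z‖ ≤ R) ∧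
  ∀ δ : ℝ, 0 < δ → 0 < ρ {z : ℂ | z.re < δ}

/-- multipliers at the height `T` -/
def Multiplier (B σ₀ R η T : ℝ) (g : ℂ → ℂ) : Prop :=
  (∀ s : ℂ, 1 / 2 ≤ s.re → AnalyticAt ℂ g s) ∧
  (∀ s : ℂ, 1 / 2 ≤ s.re → ‖g s‖ ≤ (T + ‖s‖) ^ B) ∧
  (∀ s : ℂ, σ₀ ≤ s.re → |s.im - T| ≤ R → T ^ (-η) ≤ ‖g s‖)

/-- the Dirichlet polynomial `∑_{n ≤ N} c_n n^(-s)` -/
noncomputable def DirPoly (N : ℕ) (c : ℕ → ℂ) (s : ℂ) : ℂ := ∑ n ∈ Finset.Icc 1 N, c n * (n : ℂ) ^ (-s)

/-- the positive part of `log y` -/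
noncomputable def lpos (y : ℝ) : ENNReal := ENNReal.ofReal (max 0 (Real.log y))

/-- the negative part of `log y` (infinite at `y = 0`) -/
noncomputable def lneg (y : ℝ) : ENNReal := if y = 0 then ⊤ else ENNReal.ofReal (-Real.log y)

/-- the geometric mean of `Z (l * x + h)` over `(l, h)` in `μ` is at most `exp δ`:
the average of `log Z (l * x + h)` is at most `δ` -/
def GeomLe (μ : Measure (ℝ × ℝ)) (x δ : ℝ) : Prop :=
  ∫⁻ p, lpos (Z (p.1 * x + p.2)) ∂μ ≤ ∫⁻ p, lneg (Z (p.1 * x + p.2)) ∂μ + ENNReal.ofReal δ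

/-- `μ` is a probability measure on pairs (dilation, shift) carried by `[a, b] × [-b, b]`, `a > 0`, and the
dilation `l` has positive mass -/
def Dilations (μ : Measure (ℝ × ℝ)) (a b l : ℝ) : Prop := IsProbabilityMeasure μ ∧ 0 < a ∧
  (∀ᵐ p ∂μ, a ≤ p.1 ∧ p.1 ≤ b ∧ |p.2| ≤ b) ∧ μ {p | p.1 = l} ≠ 0

lemma Z_eq' (t : ℝ) : ‖riemannZeta ⟨1 / 2, t⟩‖ = Z t := by
  unfold Z
  congr 2
  apply Complex.ext <;> simp

lemma lindelof_iff : Lindelof ↔ Pool.Agent.TH804.MS.Exponent 0 := by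
  unfold Lindelof Pool.Agent.TH804.MS.Exponent
  simp only [zero_add]
  rfl

lemma F_eq (P : Polynomial ℂ) (a : ℂ) : F P a = Pool.Agent.V7H52.GM.ff P a := rfl

lemma GM_eq (ρ : Measure ℂ) (f : ℂ → ℂ) (t : ℝ) : GM ρ f t = Pool.Agent.V7H52.GM.GMn ρ f t := rfl

lemma mult_iff {B σ₀ R η T : ℝ} {g : ℂ → ℂ} :
    Multiplier B σ₀ R η T g ↔ Pool.Agent.V7H52.GM.Mul B σ₀ R η T g :=
  ⟨fun h => ⟨h.1, h.2.1, h.2.2⟩, fun h => ⟨h.an, h.up, h.low⟩⟩

lemma R_nonneg {ρ : Measure ℂ} {R : ℝ} (h : Averaging ρ R) : 0 ≤ R := by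
  obtain ⟨h1, h2, -⟩ := h
  obtain ⟨z, hz⟩ := h2.exists
  exact (norm_nonneg z).trans hz.2

theorem result (P : Polynomial ℂ) (hP : P ≠ 0) (a : ℂ) :
    (∀ (ρ : Measure ℂ) (R : ℝ), Averaging ρ R →
      -- (A) the local law
      (∀ κ B σ₀ : ℝ, 0 < κ → 0 ≤ B → ∃ η H T₁ : ℝ, 0 < η ∧ 0 < H ∧ ∀ T : ℝ, T₁ ≤ T → T ^ κ ≤ Z T →
        ∀ g : ℂ → ℂ, Multiplier B σ₀ R η T g →
          ENNReal.ofReal η ≤ volume {t : ℝ | |t - T| ≤ H ∧ T ^ η ≤ GM ρ (fun s => F P a s * g s) t}) ∧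
      -- (B) no mollifier
      (∀ κ B : ℝ, 0 < κ → 0 ≤ B → ∃ η H T₁ : ℝ, 0 < η ∧ 0 < H ∧ ∀ T : ℝ, T₁ ≤ T → T ^ κ ≤ Z T →
        ∀ (N : ℕ) (c : ℕ → ℂ), 1 ≤ N → (N : ℝ) ≤ T ^ B → c 1 = 1 → (∀ n, ‖c n‖ ≤ (n : ℝ) ^ B) →
          ENNReal.ofReal η ≤
            volume {t : ℝ | |t - T| ≤ H ∧ T ^ η ≤ GM ρ (fun s => F P a s * DirPoly N c s) t}) ∧
      -- (C) the criteria
      (Lindelof ↔ ∀ ε : ℝ, 0 < ε → ∃ T₁ : ℝ, ∀ t : ℝ, T₁ ≤ t → GM ρ (F P a) t ≤ t ^ ε) ∧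
      (Lindelof ↔ ∀ ε : ℝ, 0 < ε →
        Tendsto (fun T : ℝ => volume {t : ℝ | T ≤ t ∧ t ≤ T + 1 ∧ t ^ ε < GM ρ (F P a) t}) atTop (𝓝 0)) ∧
      (∀ B σ₀ : ℝ, 0 ≤ B → (Lindelof ↔ ∀ ε H : ℝ, 0 < ε → 0 < H → ∃ T₁ : ℝ, ∀ T : ℝ, T₁ ≤ T →
        ∃ g : ℂ → ℂ, Multiplier B σ₀ R ε T g ∧
          volume {t : ℝ | |t - T| ≤ H ∧ T ^ ε < GM ρ (fun s => F P a s * g s) t} ≤ ENNReal.ofReal ε))) ∧
    -- (D) intervals
    (∀ h : ℝ, 0 < h → (Lindelof ↔ ∀ ε : ℝ, 0 < ε → ∃ T₁ : ℝ, ∀ t : ℝ, T₁ ≤ t →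
      ∫ u in t..(t + h), Real.log ‖F P a (1 / 2 + u * Complex.I)‖ ≤ ε * Real.log t)) ∧
    -- (E) products of shifts
    (∀ (n : ℕ) (z : Fin (n + 1) → ℂ) (w : Fin (n + 1) → ℝ), (∀ j, 0 < w j) → (∀ j, 0 ≤ (z j).re) →
      (∃ j, (z j).re = 0) → (Lindelof ↔ ∀ ε : ℝ, 0 < ε → ∃ T₁ : ℝ, ∀ t : ℝ, T₁ ≤ t →
        ∏ j, ‖F P a (1 / 2 + t * Complex.I + z j)‖ ^ (w j) ≤ t ^ ε)) ∧
    -- (G) dilations: finite products, general measures, and the local law
    (∀ (n : ℕ) (lam h w : Fin n → ℝ), 0 < n → (∀ j, 0 < lam j) → (∀ j, 0 < w j) →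
      (Lindelof ↔ ∀ ε : ℝ, 0 < ε → ∃ C : ℝ, ∀ t : ℝ, 1 ≤ t →
        ∏ j, Z (lam j * t + h j) ^ w j ≤ C * t ^ ε)) ∧
    (∀ (μ : Measure (ℝ × ℝ)) (a b l : ℝ), Dilations μ a b l →
      (Lindelof ↔ ∀ ε : ℝ, 0 < ε → ∃ T₀ : ℝ, ∀ᵐ x : ℝ, T₀ ≤ x → GeomLe μ x (ε * Real.log x)) ∧
      (∀ ε R : ℝ, 0 < ε → 0 ≤ R → ∃ ε' H T₀ : ℝ, 0 < ε' ∧ 0 < H ∧ ∀ T : ℝ, T₀ ≤ T →
        (∀ᵐ x : ℝ, |x - T| ≤ H → GeomLe μ x (ε' * Real.log T)) →
        ∀ t : ℝ, |t - l * T| ≤ R → Z t ≤ t ^ ε)) := by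
  refine ⟨fun ρ R hρ => ?_, fun h hh => ?_, fun n z w hw hz h0 => ?_,
    fun n lam h w hn hl hw => Pool.Agent.V7H83.LG.products hn hl hw,
    fun μ a b l hμ => ?_⟩
  · have hR := R_nonneg hρ
    obtain ⟨hprob, hcar, hδ⟩ := hρ
    have hF1 : (fun s => (Pool.Agent.V7H88.BS.PD P riemannZeta s - a) * 1) = F P a := by
      funext s
      rw [mul_one]
      rfl
    have hAll : Lindelof → ∀ ε : ℝ, 0 < ε → ∃ T₁ : ℝ, ∀ t : ℝ, T₁ ≤ t → GM ρ (F P a) t ≤ t ^ ε := by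
      intro hL ε hε
      obtain ⟨T₁, hT₁⟩ := eventually_atTop.1
        (Pool.Agent.V7H52.GM.GM_small P a hR hcar (lindelof_iff.1 hL) hε zero_le_one)
      refine ⟨T₁, fun t ht => ?_⟩
      have h := hT₁ t ht t (by simp)
      rw [hF1] at h
      exact h
    have hMeas : (∀ ε : ℝ, 0 < ε →
        Tendsto (fun T : ℝ => volume {t : ℝ | T ≤ t ∧ t ≤ T + 1 ∧ t ^ ε < GM ρ (F P a) t}) atTop (𝓝 0)) →
        Lindelof := by
      intro h
      rw [lindelof_iff]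
      refine Pool.Agent.V7H52.GM.crit_meas P hP a hR hcar hδ fun ε hε => ?_
      rw [hF1]
      exact h ε hε
    have hAM : (∀ ε : ℝ, 0 < ε → ∃ T₁ : ℝ, ∀ t : ℝ, T₁ ≤ t → GM ρ (F P a) t ≤ t ^ ε) → ∀ ε : ℝ, 0 < ε →
        Tendsto (fun T : ℝ => volume {t : ℝ | T ≤ t ∧ t ≤ T + 1 ∧ t ^ ε < GM ρ (F P a) t}) atTop (𝓝 0) := by
      intro h ε hε
      obtain ⟨T₁, hT₁⟩ := h ε hε
      apply tendsto_const_nhds.congr'
      filter_upwards [eventually_ge_atTop T₁] with T hT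
      symm
      have : {t : ℝ | T ≤ t ∧ t ≤ T + 1 ∧ t ^ ε < GM ρ (F P a) t} = ∅ := by
        rw [Set.eq_empty_iff_forall_notMem]
        rintro t ⟨h3, h4, h5⟩
        exact absurd (hT₁ t (by linarith)) (not_le.2 h5)
      rw [this, measure_empty]
    refine ⟨fun κ B σ₀ hκ hB => ?_, fun κ B hκ hB => ?_, ⟨hAll, fun h => hMeas (hAM h)⟩,
      ⟨fun h => hAM (hAll h), hMeas⟩, fun B σ₀ hB => ?_⟩
    · obtain ⟨η, H, hη, hH, hev⟩ := Pool.Agent.V7H52.GM.local_GM P hP a hR hcar hδ σ₀ hκ hB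
      obtain ⟨T₁, hT₁⟩ := eventually_atTop.1 hev
      refine ⟨η, H, T₁, hη, hH, fun T hT hbig g hg => ?_⟩
      exact hT₁ T hT (by rw [Z_eq']; exact hbig) g (mult_iff.1 hg)
    · obtain ⟨η, H, hη, hH, hev⟩ := Pool.Agent.V7H52.GM.no_mollifier P hP a hR hcar hδ hκ hB
      obtain ⟨T₁, hT₁⟩ := eventually_atTop.1 hev
      refine ⟨η, H, T₁, hη, hH, fun T hT hbig N c h1 h2 h3 h4 => ?_⟩
      exact hT₁ T hT (by rw [Z_eq']; exact hbig) N c h1 h2 h3 h4
    · rw [lindelof_iff, Pool.Agent.V7H52.GM.crit_mul P hP a hR hcar hδ σ₀ hB]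
      constructor
      · intro h ε H hε hH
        obtain ⟨T₁, hT₁⟩ := eventually_atTop.1 (h ε H hε hH)
        refine ⟨T₁, fun T hT => ?_⟩
        obtain ⟨g, h1, h2⟩ := hT₁ T hT
        exact ⟨g, mult_iff.2 h1, h2⟩
      · intro h ε H hε hH
        obtain ⟨T₁, hT₁⟩ := h ε H hε hH
        filter_upwards [eventually_ge_atTop T₁] with T hT
        obtain ⟨g, h1, h2⟩ := hT₁ T hT
        exact ⟨g, mult_iff.1 h1, h2⟩
  · rw [lindelof_iff]
    exact Pool.Agent.V7H52.GM.crit_interval P hP a hh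
  · rw [lindelof_iff]
    exact Pool.Agent.V7H52.GM.crit_shift P hP a hw hz h0
  · obtain ⟨hp, ha, hμ, hl⟩ := hμ
    refine ⟨Pool.Agent.V7H83.LG.geo_global ha hμ hl, ?_⟩
    intro ε R hε hR
    have hl0 : 0 < l := by
      by_contra hcon
      push Not at hcon
      refine hl (le_antisymm ?_ zero_le)
      have h1 : {p : ℝ × ℝ | p.1 = l} ⊆ {p | ¬ (a ≤ p.1 ∧ p.1 ≤ b ∧ |p.2| ≤ b)} := by
        intro p hp h2
        have hp' : p.1 = l := hp
        have h3 := h2.1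
        rw [hp'] at h3
        linarith
      calc μ {p : ℝ × ℝ | p.1 = l} ≤ μ {p | ¬ (a ≤ p.1 ∧ p.1 ≤ b ∧ |p.2| ≤ b)} := measure_mono h1
        _ = 0 := ae_iff.1 hμ
        _ ≤ 0 := le_rfl
    obtain ⟨ε', H, T₀, hε', hH, h⟩ := Pool.Agent.V7H83.LG.geo_local ha hμ hl hε hR
    refine ⟨ε', H, max T₀ ((R + 1) / l), hε', hH, fun T hT hyp t ht => ?_⟩
    have hT1 : T₀ ≤ T := (le_max_left _ _).trans hT
    have hT2 : (R + 1) / l ≤ T := (le_max_right _ _).trans hT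
    rw [div_le_iff₀ hl0] at hT2
    have ht' := abs_le.1 ht
    exact Pool.Agent.V7H83.LG.Z_le_of_log (by linarith) (h T hT1 hyp t ht)

end Pool.Agent.Results.MP_4e5e8a_nt.GeometricMeansH52
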