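import Mathlib
import Pool.Agent.V7H51.HF.ZL

/-!
# The Lindelöf hypothesis and the heat flow of the xi function

Let `xi` be the entire function of Riemann and let `H t = exp(t D²) xi` (`t > 0`) be its heat flow, so that
`H t (1/2 + iz) = ∫ Φ(u) exp(t u²) exp(iuz) du` is the family of de Bruijn.  We look at the zeros of `H` with
imaginary part near `T` at the time `x / log T`, `x > 0` fixed, and write `p x r = max(x - r, 0)² / (4x)`.

* (A) For `x, ε > 0` there are `κ, R > 0` such that for all large `T`: if `H (x / log T)` has at most `κ log T`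
  zeros (with multiplicity) with real part `≥ 1/2 + κ` and `|Im - T| ≤ R`, then
  `|ζ(1/2 + r + iT)| ≤ T^(p x r + ε)` for all `0 ≤ r ≤ 1/2`.
* (B) For `x, δ, ε > 0` and `R` there are `κ > 0` and `R'` such that for all large `T`: if
  `|ζ(1/2 + r + i(T + v))| ≤ T^(p x r + κ)` for `0 ≤ r ≤ 1/2`, `|v| ≤ R'`, then `H (x / log T)` has at most
  `ε log T` zeros with real part `≥ 1/2 + δ` and `|Im - T| ≤ R`.
* (C) There is a critical time `x₀` in `[0, 27/40]`: for `x > 0` the flow at the time `x / log T` has `o(log T)`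
  zeros off the line near `T` if and only if `x ≥ x₀`, and if and only if `ζ(1/2 + r + it) = O(t^(p x r + ε))` for
  all `0 ≤ r ≤ 1/2`.  The Lindelöf hypothesis holds if and only if `x₀ = 0`.
  One has `ζ(1/2 + it) = O(t^(x₀/4 + ε))`, and if `ζ(1/2 + it) = O(t^(θ + ε))` with `θ < 1/2` then
  `x₀ ≤ 1/(2 (1 - 2 θ))`.  For `x > max(x₀, 1/2)`, in particular for all `x > 27/40`, ALL zeros of
  `H (x / log T)` near `T` are on the line `Re s = 1/2`, for all large `T`.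

Proof.  After division by the gamma factor the flow at the time `t = x / log T` acts on `exp(ℓ u) ζ(1/2 + iT + u)`,
`ℓ = (1/2) log T`, and on the scale of exponents it is a Legendre transform; the parabola `p x` is the profile which
is carried to the extremal one.  Saddle points give upper and lower bounds of the flow; Jensen's formula and the three
circles theorem connect the size of the flow with the number of its zeros off the line, and the inverse flow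
gives back the size of zeta.  This completes the project `GLD` of the start library (helper169).
-/

set_option autoImplicit false

open Filter Topology

namespace Pool.Agent.Results.MP_4e5e8a_nt.HeatFlowZerosH51

/-- the Lindelöf hypothesis -/
def Lindelof : Prop := ∀ ε : ℝ, 0 < ε → ∃ C : ℝ, ∀ t : ℝ,
  ‖riemannZeta (1 / 2 + t * Complex.I)‖ ≤ C * (1 + |t|) ^ ε

/-- Riemann's entire function `ξ(s) = s (s - 1) π^(-s/2) Γ(s/2) ζ(s) / 2` -/
noncomputable def xi (s : ℂ) : ℂ := (s * (s - 1) * completedRiemannZeta₀ s + 1) / 2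

/-- the heat flow `exp(t D²) ξ` as a Gaussian average -/
noncomputable def H (t : ℝ) (s : ℂ) : ℂ :=
  ((1 / Real.sqrt Real.pi : ℝ) : ℂ) *
    ∫ v : ℝ, ((Real.exp (-v ^ 2) : ℝ) : ℂ) * xi (s + ((2 * Real.sqrt t * v : ℝ) : ℂ))

/-- the exponent `max(x - r, 0)² / (4x)` -/
noncomputable def p (x r : ℝ) : ℝ := max (x - r) 0 ^ 2 / (4 * x)

/-- `H (x / log T)` has at most `c` zeros, counted with multiplicity, with real part at least `1/2 + δ` and with
imaginary part in `[T - R, T + R]` -/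
def FewZeros (x δ R c T : ℝ) : Prop := ∀ S : Finset ℂ,
  (∀ z ∈ S, H (x / Real.log T) z = 0 ∧ 1 / 2 + δ ≤ z.re ∧ |z.im - T| ≤ R) →
    ∑ z ∈ S, (analyticOrderNatAt (H (x / Real.log T)) z : ℝ) ≤ c

/-- `H (x / log T)` has `o(log T)` zeros off the line near `T` -/
def Rare (x : ℝ) : Prop := ∀ δ R ε : ℝ, 0 < δ → 0 < R → 0 < ε → ∃ T₀ : ℝ, ∀ T : ℝ, T₀ ≤ T →
  FewZeros x δ R (ε * Real.log T) T

/-- `ζ(1/2 + r + it) = O(t^(m + ε))` for every `ε > 0` -/
def Grows (r m : ℝ) : Prop := ∀ ε : ℝ, 0 < ε → ∃ C : ℝ, ∀ t : ℝ, 1 ≤ t →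
  ‖riemannZeta (1 / 2 + r + t * Complex.I)‖ ≤ C * t ^ (m + ε)

/-- for large `T` all zeros of `H (x / log T)` near `T` are on the line -/
def OnLine (x : ℝ) : Prop := ∀ R : ℝ, 0 < R → ∃ T₀ : ℝ, ∀ T : ℝ, T₀ ≤ T →
  ∀ z : ℂ, H (x / Real.log T) z = 0 → |z.im - T| ≤ R → z.re = 1 / 2

lemma lindelof_iff : Lindelof ↔ Pool.Agent.V7H51.HF.Expo 0 := by
  unfold Lindelof Pool.Agent.V7H51.HF.Expo
  simp only [zero_add]

theorem result :
    -- (A) few zeros off the line near `T`: zeta is small at the height `T`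
    (∀ x ε : ℝ, 0 < x → 0 < ε → ∃ κ R T₀ : ℝ, 0 < κ ∧ 0 < R ∧ ∀ T : ℝ, T₀ ≤ T →
      FewZeros x κ R (κ * Real.log T) T → ∀ r : ℝ, 0 ≤ r → r ≤ 1 / 2 →
        ‖riemannZeta (1 / 2 + r + T * Complex.I)‖ ≤ T ^ (p x r + ε)) ∧
    -- (B) zeta small near `T`: few zeros off the line near `T`
    (∀ x δ R ε : ℝ, 0 < x → 0 < δ → 0 < ε → ∃ κ R' T₀ : ℝ, 0 < κ ∧ ∀ T : ℝ, T₀ ≤ T →
      (∀ r v : ℝ, 0 ≤ r → r ≤ 1 / 2 → |v| ≤ R' →
        ‖riemannZeta (1 / 2 + r + ((T + v : ℝ) : ℂ) * Complex.I)‖ ≤ T ^ (p x r + κ)) →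
      FewZeros x δ R (ε * Real.log T) T) ∧
    -- (C) the critical time
    ∃ x₀ : ℝ, 0 ≤ x₀ ∧ x₀ ≤ 27 / 40 ∧
      (∀ x : ℝ, 0 < x → (Rare x ↔ x₀ ≤ x)) ∧
      (∀ x : ℝ, 0 < x → (Rare x ↔ ∀ r : ℝ, 0 ≤ r → r ≤ 1 / 2 → Grows r (p x r))) ∧
      (Lindelof ↔ x₀ = 0) ∧
      Grows 0 (x₀ / 4) ∧
      (∀ θ : ℝ, 0 ≤ θ → θ < 1 / 2 → Grows 0 θ → x₀ ≤ 1 / (2 * (1 - 2 * θ))) ∧
      (∀ x : ℝ, x₀ < x → 1 / 2 < x → OnLine x) := by
  refine ⟨fun x ε hx hε => Pool.Agent.V7H51.HF.local_size hx hε,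
    fun x δ R ε hx hδ hε => Pool.Agent.V7H51.HF.local_few (R := R) hx hδ hε, ?_⟩
  obtain ⟨x₀, h0, -, h1, h2, h3, h4⟩ := Pool.Agent.V7H51.HF.critical
  have hu : x₀ ≤ 27 / 40 := (h1 _ (by norm_num)).1 Pool.Agent.V7H51.HF.few_uncond
  refine ⟨x₀, h0, hu, h1, fun x hx => Pool.Agent.V7H51.HF.few_iff hx, lindelof_iff.trans h2,
    (Pool.Agent.V7H51.HF.expo_gr (by linarith)).1 h3, fun θ hθ hθ2 hg => ?_, fun x hx hx2 R hR => ?_⟩
  · rcases h4 θ hθ hθ2 ((Pool.Agent.V7H51.HF.expo_gr hθ).2 hg) with h | h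
    · rw [h]
      have : 0 < 1 - 2 * θ := by linarith
      positivity
    · exact h
  · obtain ⟨x₁, hx₁⟩ : ∃ x₁ : ℝ, x₁ = (x₀ + x) / 2 := ⟨_, rfl⟩
    have hpos : 0 < x₁ := by rw [hx₁]; linarith
    exact Pool.Agent.V7H51.HF.online2 hpos (by rw [hx₁]; linarith) hx2 hR
      ((Pool.Agent.V7H51.HF.few_iff hpos).1 ((h1 x₁ hpos).2 (by rw [hx₁]; linarith)))

end Pool.Agent.Results.MP_4e5e8a_nt.HeatFlowZerosH51
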