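import Mathlib
import Pool.Agent.V7H88.NM.F

/-!
# The Lindelöf hypothesis and the horizontal derivative of `log |ζ|`

Let `D(σ, t) = -∂/∂σ log |ζ(σ + it)| = -Re (ζ'/ζ)(σ + it)` be the rate at which `log |ζ|` falls when one moves to
the right.

* (A) (local law, one sided) Let `1/2 ≤ σ₀ < σ ≤ 1`, `θ ≥ 0`, `ε > 0`.  There are `η, H > 0` such that for all
  large `T`: if the part of `D(σ₀, t)` above `(θ + η) log T` has integral at most `η log T` over `|t - T| ≤ H`, then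
  `|ζ(σ + iT)| ≤ T^(θ (1 - σ) + ε)`.
* (B) (local converse for `θ = 0`, two sided) Let `1/2 ≤ σ₀ ≤ 1`, `δ, ε > 0`.  There are `κ, H > 0` such that for
  all large `T`: if `|ζ(σ₀ + it)| ≤ T^κ` for `|t - T| ≤ H` then `|D(σ, t)|` has integral at most `ε log T` over
  `T ≤ t ≤ T + 1` for every `σ` in `[σ₀ + δ, 2]`.
* (A') (large values on the critical line) For `κ > 0` there are `η, H > 0` such that for all large `T` with
  `|ζ(1/2 + iT)| ≥ T^κ` and for EVERY `σ` in `[1/2, 1/2 + η]` the part of `D(σ, t)` above `η log T` has integral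
  more than `η log T` over `|t - T| ≤ H`.
* (C) If on ONE line `σ₀ ≥ 1/2` the part of `D(σ₀, t)` above `(θ + ε) log T` has integral at most `ε log T` over
  `[T, T + 1]` for all `ε > 0` and `T ≥ T₁(ε)`, then `ζ(σ + iT) = O(T^(θ (1 - σ) + ε))` for all `σ₀ < σ ≤ 1`.
* (D) For `1/2 ≤ σ₀ < 1` the following are equivalent: `ζ(σ + iT) = O(T^ε)` for all `σ > σ₀`; the horizontal
  derivative is `o(log T)` in mean over `[T, T + 1]` on all lines in `(σ₀, 1]`; the part of `D(σ, t)` above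
  `ε log T` has integral at most `ε log T` over `[T, T + 1]` on a sequence of lines decreasing to `σ₀`.
* (E) The Lindelöf hypothesis is equivalent to: `∫_T^{T+1} |Re (ζ'/ζ)(σ + it)| dt = o(log T)` for all
  `1/2 < σ ≤ 1`; and also to the one sided condition of (D) on a sequence of lines decreasing to `1/2`.

Proof of (A).  Let `ν` be the part of `D(σ₀, T + y)` above `β = (θ + η) log T` as a function of `|y| ≤ H`, and let
`F(z) = ζ(σ₀ + iT + z) exp (P(z) + (β + 3) z + K z²)` where `P(z)` is `1/π` times the logarithmic potential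
`∫ ν(y) log (z + e - iy) dy`.  On the left side of the rectangle `0 ≤ Re z ≤ a`, `|Im z| ≤ H` the horizontal
derivative of `log |F|` is positive, since that of `P` is a Poisson integral of `ν`.  So `|F|` has no maximum there,
and the maximum principle bounds `F` by its values at the ends and on the right side, where `ζ` is bounded.
Part (B) is the local factorisation of `ζ`: there are few zeros, and each of them contributes at most `π` to the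
integral of `|D|` on a vertical line.
-/

set_option autoImplicit false

open Filter Topology MeasureTheory Set

namespace Pool.Agent.Results.MP_4e5e8a_nt.HorizontalDerivativeH88

/-- the point `σ + it` -/
noncomputable def pt (σ t : ℝ) : ℂ := σ + t * Complex.I

/-- `D(σ, t) = -Re (ζ'/ζ)(σ + it)`, the rate at which `log |ζ|` falls to the right (zero at the zeros of `ζ`) -/
noncomputable def D (σ t : ℝ) : ℝ := -(deriv riemannZeta (pt σ t) / riemannZeta (pt σ t)).re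

/-- the Lindelöf hypothesis -/
def Lindelof : Prop := ∀ ε : ℝ, 0 < ε → ∃ C : ℝ, ∀ t : ℝ, ‖riemannZeta (pt (1 / 2) t)‖ ≤ C * (1 + |t|) ^ ε

/-- `|ζ(σ + iT)| ≤ T^(κ + ε)` for every `ε > 0` and all large `T` -/
def Grows (σ κ : ℝ) : Prop := ∀ ε : ℝ, 0 < ε → ∃ T₁ : ℝ, ∀ T : ℝ, T₁ ≤ T → ‖riemannZeta (pt σ T)‖ ≤ T ^ (κ + ε)

/-- the part of `D(σ, ·)` above `(θ + ε) log T` has integral at most `ε log T` over `[T, T + 1]`, for every `ε > 0`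
and all large `T` -/
def Falls (σ θ : ℝ) : Prop := ∀ ε : ℝ, 0 < ε → ∃ T₁ : ℝ, ∀ T : ℝ, T₁ ≤ T →
  ∫⁻ t in Icc T (T + 1), ENNReal.ofReal (D σ t - (θ + ε) * Real.log T) ≤ ENNReal.ofReal (ε * Real.log T)

/-- the integral of `|D(σ, ·)|` over `[T, T + 1]` is at most `ε log T`, for every `ε > 0` and all large `T` -/
def Flat (σ : ℝ) : Prop := ∀ ε : ℝ, 0 < ε → ∃ T₁ : ℝ, ∀ T : ℝ, T₁ ≤ T →
  ∫⁻ t in Icc T (T + 1), ENNReal.ofReal |D σ t| ≤ ENNReal.ofReal (ε * Real.log T)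

lemma pt_eq (σ t : ℝ) : pt σ t = ⟨σ, t⟩ := by
  unfold pt
  apply Complex.ext <;> simp

lemma D_eq (σ t : ℝ) : D σ t = Pool.Agent.V7H88.NM.Dc σ t := by
  rw [D, Pool.Agent.V7H88.NM.Dc, logDeriv_apply, pt_eq]

lemma grows_iff (σ κ : ℝ) : Grows σ κ ↔ Pool.Agent.V7H88.NM.Gr σ κ := by
  unfold Grows Pool.Agent.V7H88.NM.Gr
  simp only [pt_eq]

lemma falls_iff (σ θ : ℝ) : Falls σ θ ↔ Pool.Agent.V7H88.NM.Fa σ θ := by
  unfold Falls Pool.Agent.V7H88.NM.Fa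
  simp only [D_eq]

lemma flat_iff (σ : ℝ) : Flat σ ↔ Pool.Agent.V7H88.NM.Fl σ := by
  unfold Flat Pool.Agent.V7H88.NM.Fl
  simp only [D_eq]

lemma lindelof_iff : Lindelof ↔ Pool.Agent.TH804.MS.Exponent 0 := by
  unfold Lindelof Pool.Agent.TH804.MS.Exponent Pool.Agent.TH804.MS.Z
  simp only [zero_add, pt]
  norm_num

theorem result :
    -- (A) the one sided local law
    (∀ σ₀ σ θ ε : ℝ, 1 / 2 ≤ σ₀ → σ₀ < σ → σ ≤ 1 → 0 ≤ θ → 0 < ε →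
      ∃ η H : ℝ, 0 < η ∧ 0 < H ∧ ∃ T₁ : ℝ, ∀ T : ℝ, T₁ ≤ T →
        ∫⁻ t in Icc (T - H) (T + H), ENNReal.ofReal (D σ₀ t - (θ + η) * Real.log T) ≤
          ENNReal.ofReal (η * Real.log T) →
        ‖riemannZeta (pt σ T)‖ ≤ T ^ (θ * (1 - σ) + ε)) ∧
    -- (A') large values on the critical line
    (∀ κ : ℝ, 0 < κ → ∃ η H : ℝ, 0 < η ∧ 0 < H ∧ ∃ T₁ : ℝ, ∀ T : ℝ, T₁ ≤ T →
      T ^ κ ≤ ‖riemannZeta (pt (1 / 2) T)‖ → ∀ σ : ℝ, 1 / 2 ≤ σ → σ ≤ 1 / 2 + η →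
        ENNReal.ofReal (η * Real.log T) <
          ∫⁻ t in Icc (T - H) (T + H), ENNReal.ofReal (D σ t - η * Real.log T)) ∧
    -- (B) the local converse
    (∀ σ₀ δ ε : ℝ, 1 / 2 ≤ σ₀ → σ₀ ≤ 1 → 0 < δ → 0 < ε →
      ∃ κ H : ℝ, 0 < κ ∧ 0 < H ∧ ∃ T₁ : ℝ, ∀ T : ℝ, T₁ ≤ T →
        (∀ t : ℝ, |t - T| ≤ H → ‖riemannZeta (pt σ₀ t)‖ ≤ T ^ κ) →
        ∀ σ : ℝ, σ₀ + δ ≤ σ → σ ≤ 2 →
          ∫⁻ t in Icc T (T + 1), ENNReal.ofReal |D σ t| ≤ ENNReal.ofReal (ε * Real.log T)) ∧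
    -- (C) one line
    (∀ σ₀ θ : ℝ, 1 / 2 ≤ σ₀ → 0 ≤ θ → Falls σ₀ θ → ∀ σ : ℝ, σ₀ < σ → σ ≤ 1 → Grows σ (θ * (1 - σ))) ∧
    -- (D) the criteria in a half plane
    (∀ σ₀ : ℝ, 1 / 2 ≤ σ₀ → σ₀ < 1 →
      ((∀ σ : ℝ, σ₀ < σ → σ ≤ 1 → Grows σ 0) ↔ ∀ σ : ℝ, σ₀ < σ → σ ≤ 1 → Flat σ) ∧
      ((∀ σ : ℝ, σ₀ < σ → σ ≤ 1 → Grows σ 0) ↔ ∀ δ : ℝ, 0 < δ → ∃ σ : ℝ, σ₀ < σ ∧ σ < σ₀ + δ ∧ Falls σ 0)) ∧
    -- (E) the criteria for the Lindelof hypothesis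
    (Lindelof ↔ ∀ σ : ℝ, 1 / 2 < σ → σ ≤ 1 → Flat σ) ∧
    (Lindelof ↔ ∀ δ : ℝ, 0 < δ → ∃ σ : ℝ, 1 / 2 < σ ∧ σ < 1 / 2 + δ ∧ Falls σ 0) := by
  simp only [grows_iff, falls_iff, flat_iff, lindelof_iff]
  refine ⟨fun σ₀ σ θ ε h0 h1 h2 hθ hε => ?_, fun κ hκ => ?_, fun σ₀ δ ε h0 h1 hδ hε => ?_, fun σ₀ θ h0 hθ h σ h1 h2 => ?_,
    fun σ₀ h0 h1 => ⟨?_, ?_⟩, ?_, ?_⟩
  · simp only [D_eq, pt_eq]
    obtain ⟨η, H, hη, hH, hev⟩ := Pool.Agent.V7H88.NM.local_law h0 h1 h2 hθ hε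
    exact ⟨η, H, hη, hH, eventually_atTop.1 hev⟩
  · simp only [D_eq, pt_eq]
    obtain ⟨η, H, hη, hH, hev⟩ := Pool.Agent.V7H88.NM.large_fall hκ
    exact ⟨η, H, hη, hH, eventually_atTop.1 hev⟩
  · simp only [D_eq, pt_eq]
    obtain ⟨κ, H, hκ, hH, hev⟩ := Pool.Agent.V7H88.NM.flat_of_small (B := 2) h0 h1 hδ hε
    exact ⟨κ, H, hκ, hH, eventually_atTop.1 hev⟩
  · exact Pool.Agent.V7H88.NM.Gr_of_Fa h0 h1 h2 hθ h
  · exact Pool.Agent.V7H88.NM.crit_flat h0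
  · exact Pool.Agent.V7H88.NM.crit_fall h0 h1
  · exact Pool.Agent.V7H88.NM.crit_LH.trans (Pool.Agent.V7H88.NM.crit_flat le_rfl)
  · exact Pool.Agent.V7H88.NM.crit_LH.trans (Pool.Agent.V7H88.NM.crit_fall le_rfl (by norm_num))

end Pool.Agent.Results.MP_4e5e8a_nt.HorizontalDerivativeH88
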